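import Mathlib
import Pool.Agent.H54.BikeGeom

/-!
# Hyperbolic-to-elliptic transition of the bicycle monodromy for convex front tracks

We prove that for every simple closed front track bounding a strictly convex region there is
a length `ℓ₀ > 0` such that the bicycle monodromy is hyperbolic for all lengths `ℓ < ℓ₀` and
elliptic for all lengths `ℓ > ℓ₀`.
-/

open Set

namespace Pool.Agent.Results.MP_08099c_gt.ConvexTransition

/-- `Γ : ℝ → ℂ` (the plane is identified with `ℂ`) is a simple closed regular curve with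
period `T`, of class `C²`, which is the boundary of a compact strictly convex set of the plane. -/
structure IsStrictlyConvexFrontTrack (Γ : ℝ → ℂ) (T : ℝ) : Prop where
  period_pos : 0 < T
  smooth : ContDiff ℝ 2 Γ
  periodic : Function.Periodic Γ T
  regular : ∀ t, deriv Γ t ≠ 0
  simple : InjOn Γ (Ico 0 T)
  bounds : ∃ K : Set ℂ, IsCompact K ∧ StrictConvex ℝ K ∧ frontier K = range Γ

/-- `θ` is a bicycle motion of length `ℓ` on `[0,T]` with front track `Γ`: the bicycle at time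
`t` is the segment from the rear end `Γ t - ℓ (cos θ, sin θ)` to the front end `Γ t`, and the
no-skid condition `ℓ θ' = Γ' · (-sin θ, cos θ)` holds. -/
def IsBicycleMotion (Γ : ℝ → ℂ) (T ℓ : ℝ) (θ : ℝ → ℝ) : Prop :=
  ∀ t ∈ Icc 0 T, HasDerivWithinAt θ
    (((deriv Γ t).re * (-Real.sin (θ t)) + (deriv Γ t).im * Real.cos (θ t)) / ℓ) (Icc 0 T) t

/-- The line of `ℝ²` which represents the point `a` of the circle `ℝ / 2πℤ = ℝP¹`
(the circle is identified with the projective line by `a ↦ tan (a/2)`). -/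
noncomputable def dir (a : ℝ) : Fin 2 → ℝ := ![Real.cos (a / 2), Real.sin (a / 2)]

/-- `M ∈ SL(2,ℝ)` is a lift of the monodromy `θ(0) ↦ θ(T)` of the front track `Γ` for the
length `ℓ`: for every initial angle `a` there is a bicycle motion `θ` with `θ 0 = a`, and `M`
maps the line of the initial angle `a` to the line of the final angle `θ T`. -/
def IsMonodromyLift (Γ : ℝ → ℂ) (T ℓ : ℝ) (M : Matrix.SpecialLinearGroup (Fin 2) ℝ) : Prop :=
  ∀ a : ℝ, ∃ θ : ℝ → ℝ, IsBicycleMotion Γ T ℓ θ ∧ θ 0 = a ∧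
    ∃ r : ℝ, r ≠ 0 ∧ Matrix.mulVec (M : Matrix (Fin 2) (Fin 2) ℝ) (dir a) = r • dir (θ T)

/-- hyperbolic element of `SL(2,ℝ)`. -/
def IsHyperbolic (M : Matrix.SpecialLinearGroup (Fin 2) ℝ) : Prop :=
  2 < |Matrix.trace (M : Matrix (Fin 2) (Fin 2) ℝ)|

/-- elliptic element of `SL(2,ℝ)`. -/
def IsElliptic (M : Matrix.SpecialLinearGroup (Fin 2) ℝ) : Prop :=
  |Matrix.trace (M : Matrix (Fin 2) (Fin 2) ℝ)| < 2

open Pool.Agent.H54.Bike

lemma motion_iff {Γ : ℝ → ℂ} {T ℓ : ℝ} {θ : ℝ → ℝ} :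
    IsBicycleMotion Γ T ℓ θ ↔
      Motion T (fun t => (deriv Γ t).re) (fun t => (deriv Γ t).im) (1 / ℓ) θ := by
  unfold IsBicycleMotion Motion
  apply forall₂_congr
  intro t ht
  have : ((deriv Γ t).re * (-Real.sin (θ t)) + (deriv Γ t).im * Real.cos (θ t)) / ℓ
      = 1 / ℓ * ((deriv Γ t).re * (-Real.sin (θ t)) + (deriv Γ t).im * Real.cos (θ t)) := by
    ring
  rw [this]

/-- angle level statement for positively oriented curves -/
lemma core_pos {Γ : ℝ → ℂ} {T : ℝ} {K : Set ℂ} {p : ℂ} (h : PosCurve Γ T K p) :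
    ∃ c₀ > 0, ∀ c > 0,
      (c < c₀ → ∀ θ, Motion T (fun t => (deriv Γ t).re) (fun t => (deriv Γ t).im) c θ →
        ∀ j : ℤ, θ T ≠ θ 0 + j * (2 * Real.pi)) ∧
      (c₀ < c →
        (∃ θ, Motion T (fun t => (deriv Γ t).re) (fun t => (deriv Γ t).im) c θ ∧
          0 < Real.sin ((θ T - θ 0) / 2)) ∧
        (∃ θ, Motion T (fun t => (deriv Γ t).re) (fun t => (deriv Γ t).im) c θ ∧
          Real.sin ((θ T - θ 0) / 2) < 0)) := by
  have D := h.angleData
  have hπ := Real.pi_pos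
  obtain ⟨b, hb, hlow⟩ := bad_bddBelow D
  have hbdd : BddBelow (BadC T (fun t => ‖deriv Γ t‖) (PosCurve.kk Γ)) := ⟨b, hlow⟩
  have hne := bad_nonempty D
  set c₀ := sInf (BadC T (fun t => ‖deriv Γ t‖) (PosCurve.kk Γ)) with hc₀
  have hc₀pos : 0 < c₀ := lt_of_lt_of_le hb (le_csInf hne hlow)
  -- correspondence θ ↔ β = φ - θ
  have hcorr : ∀ c θ, Motion T (fun t => (deriv Γ t).re) (fun t => (deriv Γ t).im) c θ →
      IsSol T (fun t => ‖deriv Γ t‖) (PosCurve.kk Γ) c (fun t => PosCurve.phi Γ t - θ t) := by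
    intro c θ hθ t ht
    refine ((h.hasDeriv_phi t).hasDerivWithinAt.sub (hθ t ht)).congr_deriv ?_
    have e := h.vel_polar t
    simp only
    rw [e.1, e.2, Real.sin_sub]
    ring
  have hcorr' : ∀ c β, IsSol T (fun t => ‖deriv Γ t‖) (PosCurve.kk Γ) c β →
      Motion T (fun t => (deriv Γ t).re) (fun t => (deriv Γ t).im) c
        (fun t => PosCurve.phi Γ t - β t) := by
    intro c β hβ t ht
    refine ((h.hasDeriv_phi t).hasDerivWithinAt.sub (hβ t ht)).congr_deriv ?_
    have e := h.vel_polar t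
    simp only
    rw [e.1, e.2]
    have e2 : Real.sin (β t) = Real.sin (PosCurve.phi Γ t) * Real.cos (PosCurve.phi Γ t - β t)
        - Real.cos (PosCurve.phi Γ t) * Real.sin (PosCurve.phi Γ t - β t) := by
      rw [← Real.sin_sub]; ring_nf
    rw [e2]
    ring
  refine ⟨c₀, hc₀pos, fun c hc => ⟨?_, ?_⟩⟩
  · intro hlt θ hθ j hj
    -- not bad
    have hnb : c ∉ BadC T (fun t => ‖deriv Γ t‖) (PosCurve.kk Γ) := by
      intro hmem
      exact absurd (csInf_le hbdd hmem) (not_le.mpr hlt)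
    have hβ := hcorr c θ hθ
    have hdis : PosCurve.phi Γ 0 - θ 0 < PosCurve.phi Γ T - θ T := by
      by_contra hcon
      push Not at hcon
      exact hnb ⟨hc, _, hβ, hcon⟩
    rw [h.phi_T, hj] at hdis
    have hj1 : (j : ℝ) < 1 := by nlinarith
    have hj0 : j ≤ 0 := by
      have : j < 1 := by exact_mod_cast hj1
      omega
    -- gauge
    set x : ℝ → ℝ := fun t => (Γ t - p).re with hx
    set y : ℝ → ℝ := fun t => (Γ t - p).im with hy
    have hxd : ∀ t, HasDerivAt x ((deriv Γ t).re) t := by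
      intro t
      have e1 := Complex.reCLM.hasFDerivAt.comp_hasDerivAt t ((h.diff t).hasDerivAt.sub_const p)
      exact e1
    have hyd : ∀ t, HasDerivAt y ((deriv Γ t).im) t := by
      intro t
      have e1 := Complex.imCLM.hasFDerivAt.comp_hasDerivAt t ((h.diff t).hasDerivAt.sub_const p)
      exact e1
    have hcr : ∀ t, 0 < x t * (deriv Γ t).im - y t * (deriv Γ t).re := by
      intro t
      have := h.orient t
      rw [cross] at this
      simp only [hx, hy, Complex.sub_re, Complex.sub_im] at this ⊢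
      linarith
    have hΓT : Γ T = Γ 0 := by
      have := h.periodic 0
      rwa [zero_add] at this
    set α : ℝ → ℝ := fun t => θ t + 2 * Real.arctan
      (((Real.sin (θ t) * x t - Real.cos (θ t) * y t) *
          Real.sinh (c * Real.sqrt (x t ^ 2 + y t ^ 2) / 2)) /
        (Real.sqrt (x t ^ 2 + y t ^ 2) * Real.cosh (c * Real.sqrt (x t ^ 2 + y t ^ 2) / 2)
          - (Real.cos (θ t) * x t + Real.sin (θ t) * y t) *
            Real.sinh (c * Real.sqrt (x t ^ 2 + y t ^ 2) / 2))) with hα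
    have hg : ∀ t ∈ Icc 0 T, ∃ a' > 0, HasDerivWithinAt α a' (Icc 0 T) t := by
      intro t ht
      exact gauge_deriv (s := Icc 0 T) hc (x' := fun t => (deriv Γ t).re)
        (y' := fun t => (deriv Γ t).im) (hxd t).hasDerivWithinAt (hyd t).hasDerivWithinAt
        (hcr t) (hθ t ht)
    have hstrict : StrictMonoOn α (Icc 0 T) := by
      apply strictMonoOn_of_deriv_pos (convex_Icc 0 T)
      · intro t ht
        obtain ⟨a', _, ha'⟩ := hg t ht
        exact ha'.continuousWithinAt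
      · intro t ht
        rw [interior_Icc] at ht
        obtain ⟨a', hpos, ha'⟩ := hg t (Ioo_subset_Icc_self ht)
        rw [(ha'.hasDerivAt (Icc_mem_nhds ht.1 ht.2)).deriv]
        exact hpos
    have hlt2 := hstrict (left_mem_Icc.mpr h.hT.le) (right_mem_Icc.mpr h.hT.le) h.hT
    have hsin : Real.sin (θ T) = Real.sin (θ 0) := by
      rw [hj, Real.sin_add_int_mul_two_pi]
    have hcos : Real.cos (θ T) = Real.cos (θ 0) := by
      rw [hj, Real.cos_add_int_mul_two_pi]
    have hxT : x T = x 0 := by simp only [hx, hΓT]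
    have hyT : y T = y 0 := by simp only [hy, hΓT]
    rw [hα] at hlt2
    simp only [hsin, hcos, hxT, hyT] at hlt2
    have hj2 : (0:ℝ) < j * (2 * Real.pi) := by linarith
    have hj3 : (j : ℝ) ≤ 0 := by exact_mod_cast hj0
    nlinarith
  · intro hlt
    obtain ⟨c₁, hc₁, hc₁c⟩ := exists_lt_of_csInf_lt hne hlt
    obtain ⟨⟨β₂, hs2, h2a, h2b⟩, ⟨β₃, hs3, h3a, h3b⟩⟩ := hyp_of_bad D hc₁ hc₁c
    refine ⟨⟨_, hcorr' c β₃ hs3, ?_⟩, ⟨_, hcorr' c β₂ hs2, ?_⟩⟩
    · rw [h.phi_T]
      have e1 : (PosCurve.phi Γ 0 + 2 * Real.pi - β₃ T - (PosCurve.phi Γ 0 - β₃ 0)) / 2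
          = Real.pi - (β₃ T - β₃ 0) / 2 := by ring
      rw [e1, Real.sin_pi_sub]
      exact Real.sin_pos_of_pos_of_lt_pi (by linarith) (by linarith)
    · rw [h.phi_T]
      have e1 : (PosCurve.phi Γ 0 + 2 * Real.pi - β₂ T - (PosCurve.phi Γ 0 - β₂ 0)) / 2
          = Real.pi - (β₂ T - β₂ 0) / 2 := by ring
      rw [e1, Real.sin_pi_sub]
      exact Real.sin_neg_of_neg_of_neg_pi_lt (by linarith) (by linarith)

/-- orientation reversal -/
lemma conj_curve {Γ : ℝ → ℂ} {T : ℝ} (h : IsStrictlyConvexFrontTrack Γ T) {K : Set ℂ}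
    (hKc : IsCompact K) (hK : StrictConvex ℝ K) (hfr : frontier K = range Γ) {p : ℂ}
    (hp : p ∈ interior K) (ho : ∀ t, cross (deriv Γ t) (p - Γ t) < 0) :
    PosCurve (fun t => (starRingEnd ℂ) (Γ t)) T ((starRingEnd ℂ) '' K) ((starRingEnd ℂ) p) := by
  have hd : ∀ t, HasDerivAt (fun t => (starRingEnd ℂ) (Γ t)) ((starRingEnd ℂ) (deriv Γ t)) t := by
    intro t
    have h1 : HasDerivAt Γ (deriv Γ t) t :=
      (h.smooth.differentiable (by norm_num) t).hasDerivAt
    exact (Complex.conjCLE.toContinuousLinearMap.hasFDerivAt).comp_hasDerivAt t h1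
  have hderiv : ∀ t, deriv (fun t => (starRingEnd ℂ) (Γ t)) t = (starRingEnd ℂ) (deriv Γ t) :=
    fun t => (hd t).deriv
  refine ⟨h.period_pos, ?_, ?_, ?_, ?_, ?_, ?_, ?_, ?_, ?_⟩
  · exact Complex.conjCLE.contDiff.comp h.smooth
  · intro t
    simp only [h.periodic t]
  · intro t
    rw [hderiv]
    simpa using h.regular t
  · intro s hs t ht hst
    exact h.simple hs ht ((starRingEnd ℂ).injective hst)
  · have := hK.linear_image (Complex.conjCLE.toLinearEquiv.toLinearMap)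
      (Complex.conjCLE.toHomeomorph.isOpenMap)
    exact this
  · exact (hKc.image Complex.continuous_conj).isClosed
  · have h1 := Complex.conjCLE.toHomeomorph.image_frontier K
    have h2 : (Complex.conjCLE.toHomeomorph : ℂ → ℂ) '' K = (starRingEnd ℂ) '' K := rfl
    rw [h2, hfr] at h1
    rw [← h1]
    ext z
    simp only [mem_image, mem_range, exists_exists_eq_and]
    rfl
  · have h1 := Complex.conjCLE.toHomeomorph.image_interior K
    have h2 : (Complex.conjCLE.toHomeomorph : ℂ → ℂ) '' K = (starRingEnd ℂ) '' K := rfl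
    rw [h2] at h1
    rw [← h1]
    exact ⟨p, hp, rfl⟩
  · intro t
    rw [hderiv]
    have := ho t
    simp only [cross, Complex.sub_re, Complex.sub_im, Complex.conj_re, Complex.conj_im] at this ⊢
    linarith

/-- angle level statement for all strictly convex front tracks. -/
lemma core {Γ : ℝ → ℂ} {T : ℝ} (h : IsStrictlyConvexFrontTrack Γ T) :
    ∃ c₀ > 0, ∀ c > 0,
      (c < c₀ → ∀ θ, Motion T (fun t => (deriv Γ t).re) (fun t => (deriv Γ t).im) c θ →
        ∀ j : ℤ, θ T ≠ θ 0 + j * (2 * Real.pi)) ∧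
      (c₀ < c →
        (∃ θ, Motion T (fun t => (deriv Γ t).re) (fun t => (deriv Γ t).im) c θ ∧
          0 < Real.sin ((θ T - θ 0) / 2)) ∧
        (∃ θ, Motion T (fun t => (deriv Γ t).re) (fun t => (deriv Γ t).im) c θ ∧
          Real.sin ((θ T - θ 0) / 2) < 0)) := by
  obtain ⟨K, hKc, hK, hfr⟩ := h.bounds
  have hT := h.period_pos
  have hmemK : ∀ s, Γ s ∈ K := by
    intro s
    have : Γ s ∈ frontier K := by rw [hfr]; exact mem_range_self s
    exact hKc.isClosed.frontier_subset this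
  have hne : Γ 0 ≠ Γ (T / 2) := by
    intro heq
    have := h.simple ⟨le_refl _, hT⟩ ⟨by linarith, by linarith⟩ heq
    linarith
  set p : ℂ := (1/2 : ℝ) • Γ 0 + (1/2 : ℝ) • Γ (T / 2) with hp
  have hpi : p ∈ interior K :=
    hK (hmemK 0) (hmemK (T/2)) hne (by norm_num) (by norm_num) (by norm_num)
  have hdiff : Differentiable ℝ Γ := h.smooth.differentiable (by norm_num)
  have hsign := fun t => (support_sign hK.convex hKc.isClosed hdiff h.regular hfr hpi t).1
  have hcg : Continuous (deriv Γ) := h.smooth.continuous_deriv (by norm_num)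
  have hcont : Continuous (fun t => cross (deriv Γ t) (p - Γ t)) := by
    have h1 : Continuous Γ := hdiff.continuous
    unfold cross
    fun_prop
  -- constant sign
  have hcs : (∀ t, 0 < cross (deriv Γ t) (p - Γ t)) ∨ (∀ t, cross (deriv Γ t) (p - Γ t) < 0) := by
    by_contra hcon
    push Not at hcon
    obtain ⟨⟨t₁, h1⟩, ⟨t₂, h2⟩⟩ := hcon
    have h3 : (0:ℝ) ∈ range (fun t => cross (deriv Γ t) (p - Γ t)) :=
      mem_range_of_exists_le_of_exists_ge hcont ⟨t₁, h1⟩ ⟨t₂, h2⟩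
    obtain ⟨t, ht⟩ := h3
    exact hsign t ht
  rcases hcs with ho | ho
  · exact core_pos (K := K) (p := p)
      ⟨hT, h.smooth, h.periodic, h.regular, h.simple, hK, hKc.isClosed, hfr, hpi, ho⟩
  · have hpc := conj_curve h hKc hK hfr hpi ho
    have hderiv : ∀ t, deriv (fun t => (starRingEnd ℂ) (Γ t)) t
        = (starRingEnd ℂ) (deriv Γ t) := by
      intro t
      exact ((Complex.conjCLE.toContinuousLinearMap.hasFDerivAt).comp_hasDerivAt t
        (hdiff t).hasDerivAt).deriv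
    -- motions of the mirror curve
    have hmir : ∀ c θ, Motion T (fun t => (deriv Γ t).re) (fun t => (deriv Γ t).im) c θ →
        Motion T (fun t => (deriv (fun t => (starRingEnd ℂ) (Γ t)) t).re)
          (fun t => (deriv (fun t => (starRingEnd ℂ) (Γ t)) t).im) c (fun t => -θ t) := by
      intro c θ hθ t ht
      refine (hθ t ht).neg.congr_deriv ?_
      simp only [hderiv, Complex.conj_re, Complex.conj_im, Real.sin_neg, Real.cos_neg]
      ring
    have hmir' : ∀ c θ, Motion T (fun t => (deriv (fun t => (starRingEnd ℂ) (Γ t)) t).re)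
          (fun t => (deriv (fun t => (starRingEnd ℂ) (Γ t)) t).im) c θ →
        Motion T (fun t => (deriv Γ t).re) (fun t => (deriv Γ t).im) c (fun t => -θ t) := by
      intro c θ hθ t ht
      refine (hθ t ht).neg.congr_deriv ?_
      simp only [hderiv, Complex.conj_re, Complex.conj_im, Real.sin_neg, Real.cos_neg]
      ring
    obtain ⟨c₀, hc₀, hmain⟩ := core_pos hpc
    refine ⟨c₀, hc₀, fun c hc => ⟨?_, ?_⟩⟩
    · intro hlt θ hθ j hj
      apply (hmain c hc).1 hlt _ (hmir c θ hθ) (-j)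
      simp only [hj]
      push_cast
      ring
    · intro hlt
      obtain ⟨⟨θ₁, hθ₁, h1⟩, ⟨θ₂, hθ₂, h2⟩⟩ := (hmain c hc).2 hlt
      refine ⟨⟨_, hmir' c θ₂ hθ₂, ?_⟩, ⟨_, hmir' c θ₁ hθ₁, ?_⟩⟩
      · have : (-θ₂ T - -θ₂ 0) / 2 = -((θ₂ T - θ₂ 0) / 2) := by ring
        rw [this, Real.sin_neg]
        linarith
      · have : (-θ₁ T - -θ₁ 0) / 2 = -((θ₁ T - θ₁ 0) / 2) := by ring
        rw [this, Real.sin_neg]
        linarith

/-- **Theorem.** For every simple closed strictly convex front track `Γ` there is `ℓ₀ > 0` such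
that for every length `ℓ > 0` the monodromy of `Γ` has a lift to `SL(2,ℝ)`, and every lift is
hyperbolic if `ℓ < ℓ₀` and elliptic if `ℓ > ℓ₀`. -/
theorem result (Γ : ℝ → ℂ) (T : ℝ) (h : IsStrictlyConvexFrontTrack Γ T) :
    ∃ ℓ₀ > 0, ∀ ℓ > 0, (∃ M, IsMonodromyLift Γ T ℓ M) ∧
      ∀ M, IsMonodromyLift Γ T ℓ M →
        (ℓ < ℓ₀ → IsHyperbolic M) ∧ (ℓ₀ < ℓ → IsElliptic M) := by
  obtain ⟨c₀, hc₀, hmain⟩ := core h
  have hT := h.period_pos
  have hcg : Continuous (deriv Γ) := h.smooth.continuous_deriv (by norm_num)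
  have hx' : Continuous (fun t => (deriv Γ t).re) := Complex.continuous_re.comp hcg
  have hy' : Continuous (fun t => (deriv Γ t).im) := Complex.continuous_im.comp hcg
  refine ⟨1 / c₀, by positivity, ?_⟩
  intro ℓ hℓ
  have hc : 0 < 1 / ℓ := by positivity
  obtain ⟨m₁, m₂, m₃, m₄, hdet, hM₀⟩ := exists_matrix hT hx' hy' hc.le
  constructor
  · -- existence of the lift
    refine ⟨⟨!![m₁, m₂; m₃, m₄], by rw [Matrix.det_fin_two_of]; linarith⟩, ?_⟩
    intro a
    obtain ⟨θ, hθ, h0⟩ := Motion.exists hT hx' hy' hc.le a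
    obtain ⟨r, hr, e1, e2⟩ := hM₀ θ hθ
    refine ⟨θ, motion_iff.mpr hθ, h0, r, hr.ne', ?_⟩
    rw [h0] at e1 e2
    ext i
    fin_cases i
    · simp [Matrix.mulVec, dotProduct, dir, Fin.sum_univ_two]
      linarith
    · simp [Matrix.mulVec, dotProduct, dir, Fin.sum_univ_two]
      linarith
  · intro M hM
    -- coordinates
    set M' : Matrix (Fin 2) (Fin 2) ℝ := (M : Matrix (Fin 2) (Fin 2) ℝ) with hM'
    set n₁ := M' 0 0 with hn₁
    set n₂ := M' 0 1 with hn₂
    set n₃ := M' 1 0 with hn₃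
    set n₄ := M' 1 1 with hn₄
    have hdetM : n₁ * n₄ - n₂ * n₃ = 1 := by
      have := M.det_coe
      rw [Matrix.det_fin_two] at this
      exact this
    have htr : Matrix.trace M' = n₁ + n₄ := by
      rw [Matrix.trace_fin_two]
    -- M and M₀ are proportional on every direction
    have hprop : ∀ a : ℝ, ∃ s : ℝ, s ≠ 0 ∧
        n₁ * Real.cos (a / 2) + n₂ * Real.sin (a / 2)
          = s * (m₁ * Real.cos (a / 2) + m₂ * Real.sin (a / 2)) ∧
        n₃ * Real.cos (a / 2) + n₄ * Real.sin (a / 2)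
          = s * (m₃ * Real.cos (a / 2) + m₄ * Real.sin (a / 2)) := by
      intro a
      obtain ⟨θ, hθ, h0, r, hr, hv⟩ := hM a
      obtain ⟨r', hr', e1, e2⟩ := hM₀ θ (motion_iff.mp hθ)
      rw [h0] at e1 e2
      have v0 := congrFun hv 0
      have v1 := congrFun hv 1
      simp only [Matrix.mulVec, dotProduct, dir, Fin.sum_univ_two, Matrix.cons_val_zero,
        Matrix.cons_val_one, Pi.smul_apply, smul_eq_mul] at v0 v1
      refine ⟨r / r', div_ne_zero hr hr'.ne', ?_, ?_⟩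
      · rw [e1, div_mul_eq_mul_div, mul_comm r' _, ← mul_assoc, mul_div_assoc,
          div_self hr'.ne', mul_one]
        exact v0
      · rw [e2, div_mul_eq_mul_div, mul_comm r' _, ← mul_assoc, mul_div_assoc,
          div_self hr'.ne', mul_one]
        exact v1
    obtain ⟨s₀, hs₀, a1, a2⟩ := hprop 0
    obtain ⟨s₁, hs₁, b1, b2⟩ := hprop Real.pi
    obtain ⟨s₂, hs₂, d1, d2⟩ := hprop (Real.pi / 2)
    simp only [zero_div, Real.cos_zero, Real.sin_zero, mul_one, mul_zero, add_zero] at a1 a2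
    simp only [Real.cos_pi_div_two, Real.sin_pi_div_two, mul_one, mul_zero, zero_add] at b1 b2
    rw [show Real.pi / 2 / 2 = Real.pi / 4 by ring, Real.cos_pi_div_four,
      Real.sin_pi_div_four] at d1 d2
    have hsq2 : (0:ℝ) < Real.sqrt 2 / 2 := by positivity
    have d1' : n₁ + n₂ = s₂ * (m₁ + m₂) := by
      apply mul_right_cancel₀ hsq2.ne'
      linarith
    have d2' : n₃ + n₄ = s₂ * (m₃ + m₄) := by
      apply mul_right_cancel₀ hsq2.ne'
      linarith
    rw [a1, b1] at d1'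
    rw [a2, b2] at d2'
    -- s₀ = s₂ = s₁
    have f1 : s₀ = s₂ := by
      have : (s₀ - s₂) * (m₁ * m₄ - m₂ * m₃) = 0 := by
        linear_combination m₄ * d1' - m₂ * d2'
      rw [hdet, mul_one] at this
      linarith
    have f2 : s₁ = s₂ := by
      have : (s₁ - s₂) * (m₁ * m₄ - m₂ * m₃) = 0 := by
        linear_combination m₁ * d2' - m₃ * d1'
      rw [hdet, mul_one] at this
      linarith
    have f3 : s₀ ^ 2 = 1 := by
      have : n₁ * n₄ - n₂ * n₃ = s₀ ^ 2 * (m₁ * m₄ - m₂ * m₃) := by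
        rw [a1, a2, b1, b2, f2, ← f1]; ring
      rw [hdet, hdetM, mul_one] at this
      exact this.symm
    have f4 : |n₁ + n₄| = |m₁ + m₄| := by
      have e : n₁ + n₄ = s₀ * (m₁ + m₄) := by
        rw [a1, b2, f2, ← f1]; ring
      have e' : |s₀| = 1 := by
        rw [← sq_eq_sq₀ (abs_nonneg _) zero_le_one, sq_abs, f3, one_pow]
      rw [e, abs_mul, e', one_mul]
    -- quadratic form
    have hQ : ∀ θ, Motion T (fun t => (deriv Γ t).re) (fun t => (deriv Γ t).im) (1 / ℓ) θ →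
        ∃ r > 0, m₃ * Real.cos (θ 0 / 2) ^ 2
          + (m₄ - m₁) * Real.cos (θ 0 / 2) * Real.sin (θ 0 / 2)
          + (-m₂) * Real.sin (θ 0 / 2) ^ 2 = r * Real.sin ((θ T - θ 0) / 2) := by
      intro θ hθ
      obtain ⟨r, hr, e1, e2⟩ := hM₀ θ hθ
      refine ⟨r, hr, ?_⟩
      have := cross_dir m₁ m₂ m₃ m₄ r (θ 0) (θ T) e1 e2
      linarith
    have hdisc : (m₄ - m₁) ^ 2 - 4 * m₃ * (-m₂) = (m₁ + m₄) ^ 2 - 4 := by
      linear_combination (-4) * hdet
    constructor
    · intro hlt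
      have hcc : c₀ < 1 / ℓ := by
        rw [lt_div_iff₀ hℓ]
        rw [lt_div_iff₀ hc₀] at hlt
        linarith
      obtain ⟨⟨θ₁, hθ₁, p1⟩, ⟨θ₂, hθ₂, p2⟩⟩ := (hmain (1 / ℓ) hc).2 hcc
      obtain ⟨r₁, hr₁, q1⟩ := hQ θ₁ hθ₁
      obtain ⟨r₂, hr₂, q2⟩ := hQ θ₂ hθ₂
      have hd := disc_pos (A := m₃) (B := m₄ - m₁) (C := -m₂)
        (x₁ := Real.cos (θ₁ 0 / 2)) (y₁ := Real.sin (θ₁ 0 / 2))
        (x₂ := Real.cos (θ₂ 0 / 2)) (y₂ := Real.sin (θ₂ 0 / 2))
        (by rw [q1]; exact mul_pos hr₁ p1) (by rw [q2]; exact mul_neg_of_pos_of_neg hr₂ p2)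
      rw [hdisc] at hd
      unfold IsHyperbolic
      rw [← hM', htr, f4]
      have h4 : (2:ℝ) ^ 2 < |m₁ + m₄| ^ 2 := by rw [sq_abs]; linarith
      exact lt_of_pow_lt_pow_left₀ 2 (abs_nonneg _) h4
    · intro hlt
      have hcc : 1 / ℓ < c₀ := by
        rw [div_lt_iff₀ hℓ]
        rw [div_lt_iff₀ hc₀] at hlt
        linarith
      have hno := (hmain (1 / ℓ) hc).1 hcc
      unfold IsElliptic
      rw [← hM', htr, f4]
      by_contra hcon
      push Not at hcon
      have h4 : 0 ≤ (m₄ - m₁) ^ 2 - 4 * m₃ * (-m₂) := by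
        rw [hdisc, ← sq_abs (m₁ + m₄)]
        nlinarith
      obtain ⟨a, ha⟩ := exists_dir_zero h4
      obtain ⟨θ, hθ, h0⟩ := Motion.exists hT hx' hy' hc.le a
      obtain ⟨r, hr, q1⟩ := hQ θ hθ
      rw [h0] at q1
      have h5 : r * Real.sin ((θ T - a) / 2) = 0 := by rw [← q1]; exact ha
      have h6 : Real.sin ((θ T - a) / 2) = 0 := by
        rcases mul_eq_zero.mp h5 with h | h
        · exact absurd h hr.ne'
        · exact h
      obtain ⟨j, hj⟩ := Real.sin_eq_zero_iff.mp h6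
      apply hno θ hθ j
      rw [h0]
      linarith

end Pool.Agent.Results.MP_08099c_gt.ConvexTransition
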